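import Pool.Agent.Helper39.OWN.SymS

/-!
# MP_4912e6_co: monochromatic symmetric sets, all numbers of colours

The compact groups above `SU(2)^33 x T^3` have `ms(H, r) < 1 / r^2` for every `r ≥ 2`.
-/

set_option autoImplicit false

namespace Pool.Agent.Results.MP_4912e6_co.AllColourNumbers

open MeasureTheory

universe u

/-- The Haar probability measure of the compact group `H`. -/
noncomputable def haarProb (H : Type u) [Group H] [TopologicalSpace H] [IsTopologicalGroup H]
    [CompactSpace H] [MeasurableSpace H] [BorelSpace H] : Measure H :=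
  Measure.haarMeasure (⊤ : TopologicalSpace.PositiveCompacts H)

/-- `ms(H, r)`: the supremum of all `ε > 0` such that every colouring `χ` of `H` with `r` colours,
all classes of which are null measurable (measurable for the completed Haar measure), has a null
measurable monochromatic set `B` with `B = g B⁻¹ g` for some `g` and of measure at least `ε`. -/
noncomputable def ms (H : Type u) [Group H] [TopologicalSpace H] [IsTopologicalGroup H]
    [CompactSpace H] [MeasurableSpace H] [BorelSpace H] (r : ℕ) : ℝ :=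
  sSup {ε : ℝ | 0 < ε ∧ ∀ χ : H → Fin r, (∀ i, NullMeasurableSet (χ ⁻¹' {i}) (haarProb H)) →
    ∃ (B : Set H) (i : Fin r) (g : H), NullMeasurableSet B (haarProb H) ∧ B ⊆ χ ⁻¹' {i} ∧
      B = (fun x => g * x⁻¹ * g) '' B ∧ ε ≤ (haarProb H).real B}

theorem connected_S : ConnectedSpace (Metric.sphere (0 : Quaternion ℝ) 1) := by
  have h : IsConnected (Metric.sphere (0 : Quaternion ℝ) 1) := by
    refine isConnected_sphere ?_ 0 zero_le_one
    rw [Quaternion.rank_eq_four]
    norm_num
  exact Subtype.connectedSpace h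

theorem connected_circle : ConnectedSpace Circle := by
  have h := (AddCircle.homeomorphCircle (T := (1 : ℝ)) one_ne_zero).surjective.connectedSpace
    (AddCircle.homeomorphCircle (T := (1 : ℝ)) one_ne_zero).continuous
  exact h

/-- The group `SU(2)^(33 n) x T^3`. -/
abbrev L (n : ℕ) : Type :=
  (Fin (33 * n) → Metric.sphere (0 : Quaternion ℝ) 1) × (Fin 3 → Circle)

/-- Let `n ≥ 1` and `L = SU(2)^(33 n) x T^3`, a connected compact group.  Every compact Hausdorff
group `H` with a continuous surjective homomorphism onto `L` satisfies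
`ms(H, r) ≤ (1 - 2^(-16))^(min n (log₂ r)) / r^2` for all `r ≥ 2`. -/
theorem result (n : ℕ) (hn : 1 ≤ n) :
    (IsTopologicalGroup (L n) ∧ CompactSpace (L n) ∧ T2Space (L n) ∧ ConnectedSpace (L n)) ∧
    ∀ (H : Type u) [Group H] [TopologicalSpace H] [IsTopologicalGroup H] [CompactSpace H]
      [T2Space H] [MeasurableSpace H] [BorelSpace H]
      (π : H →* L n),
      Continuous π → Function.Surjective π → ∀ r : ℕ, 2 ≤ r →
        ms H r ≤ (1 - 1 / 65536) ^ (min n (Nat.log 2 r)) / (r : ℝ) ^ 2 ∧
        ms H r < 1 / (r : ℝ) ^ 2 := by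
  refine ⟨⟨inferInstance, inferInstance, inferInstance, ?_⟩, ?_⟩
  · have h1 := connected_S
    have h2 := connected_circle
    infer_instance
  · intro H _ _ _ _ _ _ _ π hπ hs r hr
    have hr0 : (0 : ℝ) < r := by
      have : 0 < r := by omega
      exact_mod_cast this
    have hprob : IsProbabilityMeasure (haarProb H) := Pool.Agent.Helper39.OWN.Sym.hr_prob H
    set c : ℝ := (1 - 1 / 65536) ^ (min n (Nat.log 2 r)) / (r : ℝ) ^ 2 with hc
    have hc0 : 0 ≤ c := by
      rw [hc]
      positivity
    have main : ms H r ≤ c := by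
      refine Real.sSup_le (fun ε hε => ?_) hc0
      obtain ⟨-, hε⟩ := hε
      refine le_of_forall_pos_le_add fun δ hδ => ?_
      obtain ⟨p, hpl, hp⟩ := Nat.exists_infinite_primes (max 3 (⌈4 / δ⌉₊ + 1))
      have hp3 : 3 ≤ p := (le_max_left _ _).trans hpl
      have hpd : ⌈4 / δ⌉₊ + 1 ≤ p := (le_max_right _ _).trans hpl
      have hp0 : (0 : ℝ) < p := by exact_mod_cast hp.pos
      have hpδ : 4 / (p : ℝ) ≤ δ := by
        have h1 : 4 / δ ≤ p := by
          have h2 : ((⌈4 / δ⌉₊ + 1 : ℕ) : ℝ) ≤ p := by exact_mod_cast hpd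
          push_cast at h2
          have h3 := Nat.le_ceil (4 / δ)
          linarith
        rw [div_le_iff₀ hδ] at h1
        rw [div_le_iff₀ hp0]
        linarith
      obtain ⟨χ, hχ, hb⟩ := Pool.Agent.Helper39.OWN.Sym.colouring n r (by omega) π hπ hs p hp
        (by omega)
      obtain ⟨B, i, g, -, hBi, hB, hεB⟩ := hε χ
        fun i => (hχ (measurableSet_singleton i)).nullMeasurableSet
      have hsub : B ⊆ {x | χ x = i ∧ χ (g * x⁻¹ * g) = i} := by
        intro x hx
        have hx2 : g * x⁻¹ * g ∈ B := by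
          rw [hB]
          exact ⟨x, hx, rfl⟩
        exact ⟨hBi hx, hBi hx2⟩
      have h1 : (haarProb H).real B ≤ (haarProb H).real {x | χ x = i ∧ χ (g * x⁻¹ * g) = i} :=
        measureReal_mono hsub
      have h2 : (haarProb H).real {x | χ x = i ∧ χ (g * x⁻¹ * g) = i} ≤ c + 4 / p := hb i g
      linarith
    refine ⟨main, main.trans_lt ?_⟩
    rw [hc]
    refine div_lt_div_of_pos_right ?_ (by positivity)
    have hlog : 1 ≤ Nat.log 2 r := Nat.log_pos (by norm_num) hr
    have hmin : min n (Nat.log 2 r) ≠ 0 := by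
      have := le_min hn hlog
      omega
    exact pow_lt_one₀ (by norm_num) (by norm_num) hmin

end Pool.Agent.Results.MP_4912e6_co.AllColourNumbers
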